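import Pool.Agent.H.MP_6d0d7d_lc.Proof

set_option autoImplicit false

universe u v w

namespace Pool.Agent.Results.MP_6d0d7d_lc.Main

open Pool.Agent.H.MP_6d0d7d_lc

/-- **Theorem.** Let `G` be a permutation group on a countable set `X` (closed or not), with the
topology of pointwise convergence. Then `G` is extremely amenable if and only if it has the
canonisation property. -/
theorem result {X : Type u} [Countable X] (G : Subgroup (Equiv.Perm X)) :
    ExtremelyAmenable.{u, v} G ↔ CanonisationProperty.{u, w} G :=
  main G

end Pool.Agent.Results.MP_6d0d7d_lc.Main
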